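import Mathlib

/-!
MP_12bcff_ag, Q1: a two-variable polynomial map over every finite field with a geometrically
nilpotent curve that is not nilpotent.

The map is `T (x, y) = (x + x y, x)`. It contracts the line `x = 0` to the fixed point `(0, 0)`, it is
injective outside of this line, and the points `(x, 0)`, `x ≠ 0`, are not in its image. So the orbit
of such a point, which is finite, cannot be periodic and must reach the line `x = 0`.
-/

set_option autoImplicit false

namespace Pool.Agent.Results.MP_12bcff_ag.BlowDownMap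

open MvPolynomial

universe u

variable {F : Type u} [Field F]

/-- The regular self-map `(x, y) ↦ (f (x, y), g (x, y))` of the affine plane over `F`, on the
geometric points. -/
noncomputable def planeMap (f g : MvPolynomial (Fin 2) F) (v : Fin 2 → AlgebraicClosure F) :
    Fin 2 → AlgebraicClosure F :=
  ![aeval v f, aeval v g]

/-- The geometric points of the closed subvariety, defined over `F`, of the affine plane which is
given by the equations `p = 0`, `p ∈ S`. -/
def zeros (S : Set (MvPolynomial (Fin 2) F)) : Set (Fin 2 → AlgebraicClosure F) :=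
  {v | ∀ p ∈ S, aeval v p = 0}

/-- `Y` is nilpotent for `T`: a single iterate maps all of `Y` to a fixed point `P`. -/
def IsNilpotentFor (T : (Fin 2 → AlgebraicClosure F) → Fin 2 → AlgebraicClosure F)
    (Y : Set (Fin 2 → AlgebraicClosure F)) : Prop :=
  ∃ P, T P = P ∧ ∃ k : ℕ, 1 ≤ k ∧ T^[k] '' Y = {P}

/-- `Y` is geometrically nilpotent for `T`: there is a fixed point `P` such that some iterate, which
may depend on the point, maps each geometric point of `Y` to `P`. -/
def IsGeomNilpotentFor (T : (Fin 2 → AlgebraicClosure F) → Fin 2 → AlgebraicClosure F)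
    (Y : Set (Fin 2 → AlgebraicClosure F)) : Prop :=
  ∃ P, T P = P ∧ ∀ Q ∈ Y, ∃ k : ℕ, 1 ≤ k ∧ T^[k] Q = P

/-- The map `T (x, y) = (x + x y, x)`. -/
noncomputable abbrev T (F : Type u) [Field F] :
    (Fin 2 → AlgebraicClosure F) → Fin 2 → AlgebraicClosure F :=
  planeMap (X 0 + X 0 * X 1 : MvPolynomial (Fin 2) F) (X 0)

theorem T_apply (v : Fin 2 → AlgebraicClosure F) : T F v = ![v 0 + v 0 * v 1, v 0] := by
  simp [T, planeMap]

theorem T_zero : T F 0 = 0 := by
  rw [T_apply]
  ext i
  fin_cases i <;> simp

theorem T_of_zero {v : Fin 2 → AlgebraicClosure F} (h : v 0 = 0) : T F v = 0 := by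
  rw [T_apply, h]
  ext i
  fin_cases i <;> simp

theorem T_inj {u v : Fin 2 → AlgebraicClosure F} (hu : u 0 ≠ 0) (h : T F u = T F v) : u = v := by
  rw [T_apply, T_apply] at h
  have h0 : u 0 + u 0 * u 1 = v 0 + v 0 * v 1 := by simpa using congrFun h 0
  have h1 : u 0 = v 0 := by simpa using congrFun h 1
  rw [← h1] at h0
  have h2 : u 1 = v 1 := mul_left_cancel₀ hu (add_left_cancel h0)
  ext i
  fin_cases i
  · exact h1
  · exact h2

/-- The orbit of a point over the algebraic closure of a finite field is finite. -/
theorem exists_repeat [Finite F] (v : Fin 2 → AlgebraicClosure F) :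
    ∃ i j : ℕ, i < j ∧ (T F)^[i] v = (T F)^[j] v := by
  classical
  let L : IntermediateField F (AlgebraicClosure F) := IntermediateField.adjoin F (Set.range v)
  have hfd : FiniteDimensional F L := by
    refine IntermediateField.finiteDimensional_adjoin fun x _ => ?_
    exact (Algebra.IsAlgebraic.isAlgebraic x).isIntegral
  have hfin : Finite L := Module.finite_of_finite F
  have hmem : ∀ n : ℕ, ∀ i, (T F)^[n] v i ∈ L := by
    intro n
    induction n with
    | zero =>
      intro i
      exact IntermediateField.subset_adjoin F _ ⟨i, rfl⟩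
    | succ n ih =>
      intro i
      rw [Function.iterate_succ_apply', T_apply]
      fin_cases i
      · exact L.add_mem (ih 0) (L.mul_mem (ih 0) (ih 1))
      · exact ih 0
  let φ : ℕ → (Fin 2 → L) := fun n i => ⟨(T F)^[n] v i, hmem n i⟩
  obtain ⟨i, j, hij, h⟩ := Finite.exists_ne_map_eq_of_infinite φ
  have h' : (T F)^[i] v = (T F)^[j] v := by
    ext l
    have := congrArg Subtype.val (congrFun h l)
    simpa [φ] using this
  rcases lt_or_gt_of_ne hij with hlt | hlt
  · exact ⟨i, j, hlt, h'⟩
  · exact ⟨j, i, hlt, h'.symm⟩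

theorem reaches [Finite F] {v : Fin 2 → AlgebraicClosure F} (hv : v 1 = 0) :
    ∃ n : ℕ, (T F)^[n] v 0 = 0 := by
  by_contra hcon
  push Not at hcon
  obtain ⟨i, j, hij, h⟩ := exists_repeat v
  have key : ∀ i d : ℕ, (T F)^[i] v = (T F)^[i + d] v → v = (T F)^[d] v := by
    intro i
    induction i with
    | zero =>
      intro d hd
      simpa using hd
    | succ i ih =>
      intro d hd
      apply ih d
      rw [Nat.succ_add, Function.iterate_succ_apply', Function.iterate_succ_apply'] at hd
      exact T_inj (hcon i) hd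
  obtain ⟨d, rfl⟩ := Nat.exists_eq_add_of_lt hij
  have h1 := key i (d + 1) h
  rw [Function.iterate_succ_apply', T_apply] at h1
  have h2 := congrFun h1 1
  rw [hv] at h2
  exact hcon d (by simpa using h2.symm)

/-- The iterates of the generic point of the line `y = 0`. -/
noncomputable def gen (K : Type u) [Field K] : ℕ → Polynomial K × Polynomial K
  | 0 => (Polynomial.X, 0)
  | n + 1 => ((gen K n).1 + (gen K n).1 * (gen K n).2, (gen K n).1)

theorem gen_eval0 (K : Type u) [Field K] (n : ℕ) :
    (gen K n).1.eval 0 = 0 ∧ (gen K n).2.eval 0 = 0 := by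
  induction n with
  | zero => simp [gen]
  | succ n ih => simp [gen, ih.1]

theorem gen_ne (K : Type u) [Field K] (n : ℕ) : (gen K n).1 ≠ 0 := by
  induction n with
  | zero => simp [gen]
  | succ n ih =>
    have h : (gen K (n + 1)).1 = (gen K n).1 * (1 + (gen K n).2) := by
      simp only [gen]
      ring
    rw [h]
    refine mul_ne_zero ih fun h0 => ?_
    have := congrArg (Polynomial.eval 0) h0
    simp [(gen_eval0 K n).2] at this

theorem gen_eval (a : AlgebraicClosure F) (n : ℕ) :
    (T F)^[n] ![a, 0] = ![(gen (AlgebraicClosure F) n).1.eval a,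
      (gen (AlgebraicClosure F) n).2.eval a] := by
  induction n with
  | zero => simp [gen]
  | succ n ih =>
    rw [Function.iterate_succ_apply', ih, T_apply]
    simp [gen]

/-- Over every finite field `F`, the line `y = 0` is geometrically nilpotent, and not nilpotent, for
the two-variable polynomial map `T (x, y) = (x + x y, x)`. -/
theorem result (F : Type u) [Field F] [Finite F] :
    ∃ (f g : MvPolynomial (Fin 2) F) (S : Set (MvPolynomial (Fin 2) F)),
      f = X 0 + X 0 * X 1 ∧ g = X 0 ∧ S = {X 1} ∧ (zeros S).Nonempty ∧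
      IsGeomNilpotentFor (planeMap f g) (zeros S) ∧ ¬ IsNilpotentFor (planeMap f g) (zeros S) := by
  refine ⟨X 0 + X 0 * X 1, X 0, {X 1}, rfl, rfl, rfl, ⟨0, ?_⟩, ⟨0, T_zero, ?_⟩, ?_⟩
  · intro p hp
    rw [Set.mem_singleton_iff.1 hp]
    simp
  · intro Q hQ
    have hQ1 : Q 1 = 0 := by
      have := hQ (X 1) rfl
      simpa using this
    obtain ⟨n, hn⟩ := reaches hQ1
    refine ⟨n + 1, Nat.succ_le_succ (Nat.zero_le n), ?_⟩
    rw [Function.iterate_succ_apply']
    exact T_of_zero hn
  · rintro ⟨P, -, k, -, hP⟩
    have h0 : (0 : Fin 2 → AlgebraicClosure F) ∈ zeros ({X 1} : Set (MvPolynomial (Fin 2) F)) := by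
      intro p hp
      rw [Set.mem_singleton_iff.1 hp]
      simp
    have hP0 : P = 0 := by
      have h1 : (T F)^[k] 0 ∈ (T F)^[k] '' zeros ({X 1} : Set (MvPolynomial (Fin 2) F)) :=
        ⟨0, h0, rfl⟩
      rw [hP, Function.iterate_fixed T_zero k] at h1
      exact (Set.mem_singleton_iff.1 h1).symm
    have hall : ∀ a : AlgebraicClosure F, (gen (AlgebraicClosure F) k).1.eval a = 0 := by
      intro a
      have h1 : (![a, 0] : Fin 2 → AlgebraicClosure F) ∈
          zeros ({X 1} : Set (MvPolynomial (Fin 2) F)) := by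
        intro p hp
        rw [Set.mem_singleton_iff.1 hp]
        simp
      have h2 : (T F)^[k] ![a, 0] ∈ (T F)^[k] '' zeros ({X 1} : Set (MvPolynomial (Fin 2) F)) :=
        ⟨_, h1, rfl⟩
      rw [hP, hP0, Set.mem_singleton_iff, gen_eval] at h2
      simpa using congrFun h2 0
    exact gen_ne (AlgebraicClosure F) k (Polynomial.funext fun a => by simpa using hall a)

end Pool.Agent.Results.MP_12bcff_ag.BlowDownMap
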